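import Pool.Agent.Lib.MP_d4114f_an.Tools

/-!
The composition of two proximally irreducible extensions of affine flows is proximally
irreducible, for every topological group.
-/

set_option autoImplicit false

open Set Filter Topology

namespace Pool.Agent.Results.MP_d4114f_an.Composition

open Pool.Agent.Lib.MP_d4114f_an

variable {G : Type*} [Group G] [TopologicalSpace G]
variable {E : Type*} [AddCommGroup E] [Module ℝ E] [TopologicalSpace E] [T2Space E]
  [IsTopologicalAddGroup E] [ContinuousSMul ℝ E] [LocallyConvexSpace ℝ E]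
variable {F : Type*} [AddCommGroup F] [Module ℝ F] [TopologicalSpace F] [T2Space F]
  [IsTopologicalAddGroup F] [ContinuousSMul ℝ F] [LocallyConvexSpace ℝ F]
variable {H : Type*} [AddCommGroup H] [Module ℝ H] [TopologicalSpace H] [T2Space H]
  [IsTopologicalAddGroup H] [ContinuousSMul ℝ H] [LocallyConvexSpace ℝ H]

omit [T2Space F] [IsTopologicalAddGroup F] [ContinuousSMul ℝ F] [LocallyConvexSpace ℝ F]
  [T2Space E] [IsTopologicalAddGroup E] [ContinuousSMul ℝ E] [LocallyConvexSpace ℝ E]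
  [T2Space H] [IsTopologicalAddGroup H] [ContinuousSMul ℝ H] [LocallyConvexSpace ℝ H] in
/-- The composition of affine extensions is an affine extension. -/
lemma isAffineExtension_comp {K : AffineFlow G E} {L : AffineFlow G F} {P : AffineFlow G H}
    {φ : F → E} {ψ : H → F} (hφ : IsAffineExtension L K φ) (hψ : IsAffineExtension P L ψ) :
    IsAffineExtension P K (φ ∘ ψ) := by
  have hmem : ∀ p ∈ P.carrier, ψ p ∈ L.carrier := by
    intro p hp
    rw [← hψ.image_eq]
    exact mem_image_of_mem ψ hp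
  refine ⟨hφ.continuousOn.comp hψ.continuousOn hmem, ?_, ?_, ?_⟩
  · intro x hx y hy a b ha hb hab
    show φ (ψ (a • x + b • y)) = a • φ (ψ x) + b • φ (ψ y)
    rw [hψ.affine x hx y hy a b ha hb hab,
      hφ.affine _ (hmem x hx) _ (hmem y hy) a b ha hb hab]
  · intro g x hx
    show φ (ψ (P.act g x)) = K.act g (φ (ψ x))
    rw [hψ.equivariant g x hx, hφ.equivariant g _ (hmem x hx)]
  · rw [image_comp, hψ.image_eq, hφ.image_eq]

/-- Density: for an open set `O` meeting `closure (ext K)` densely, the part of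
`closure (ext L)` over `O` is dense. -/
lemma subset_closure_over {K : AffineFlow G E} {L : AffineFlow G F} {φ : F → E}
    (hφ : IsAffineExtension L K φ) (pφ : IsProximallyIrreducible L K φ)
    {A : Set E} (hA : A ⊆ K.clExt) (hinv : ∀ g : G, ∀ y ∈ A, K.act g y ∈ A)
    (hd : K.clExt ⊆ closure A) : L.clExt ⊆ closure (L.clExt ∩ φ ⁻¹' A) := by
  set Z : Set F := closure (L.clExt ∩ φ ⁻¹' A) with hZ
  have hZsub : Z ⊆ L.clExt := closure_minimal inter_subset_left L.isClosed_clExt
  have hZL : Z ⊆ L.carrier := hZsub.trans L.clExt_subset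
  have hZclosed : IsClosed Z := isClosed_closure
  have hZcomp : IsCompact Z := L.isCompact_carrier.of_isClosed_subset hZclosed hZL
  have hZinv : ∀ g : G, ∀ x ∈ Z, L.act g x ∈ Z := by
    intro g x hx
    have hc : ContinuousWithinAt (L.act g) (L.clExt ∩ φ ⁻¹' A) x :=
      (L.continuousOn_act_right g x (hZL hx)).mono (inter_subset_left.trans L.clExt_subset)
    refine hc.mem_closure hx (fun y hy => ⟨L.act_mem_clExt g hy.1, ?_⟩)
    show φ (L.act g y) ∈ A
    rw [hφ.equivariant g y (L.clExt_subset hy.1)]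
    exact hinv g _ hy.2
  have hsub := L.isSubflow_closure_convexHull hZL hZinv
  have himg : K.clExt ⊆ φ '' Z := by
    have hc : IsCompact (φ '' Z) :=
      hZcomp.image_of_continuousOn (hφ.continuousOn.mono hZL)
    refine hd.trans (closure_minimal ?_ hc.isClosed)
    intro y hy
    obtain ⟨x, hx, hxy⟩ := hφ.exists_lift (hA hy)
    exact ⟨x, subset_closure ⟨hx, by show φ x ∈ A; rw [hxy]; exact hy⟩, hxy⟩
  have heq : closure (convexHull ℝ Z) = L.carrier := by
    apply pφ _ hsub
    intro y hy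
    obtain ⟨x, hx, hxy⟩ := himg hy
    exact ⟨x, subset_closure (subset_convexHull ℝ Z hx),
      subset_convexHull ℝ _ ⟨hZsub hx, hxy⟩⟩
  have hext : L.carrier.extremePoints ℝ ⊆ Z :=
    milman L.isCompact_carrier L.convex_carrier hZcomp heq
  exact closure_minimal hext hZclosed

/-- **Main theorem.** For every group `G` with a topology, the composition of two proximally
irreducible affine extensions of affine `G`-flows is a proximally irreducible affine
extension. -/
theorem result {K : AffineFlow G E} {L : AffineFlow G F} {P : AffineFlow G H}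
    {φ : F → E} {ψ : H → F}
    (hφ : IsAffineExtension L K φ) (hψ : IsAffineExtension P L ψ)
    (pφ : IsProximallyIrreducible L K φ) (pψ : IsProximallyIrreducible P L ψ) :
    IsAffineExtension P K (φ ∘ ψ) ∧ IsProximallyIrreducible P K (φ ∘ ψ) := by
  have hθ : IsAffineExtension P K (φ ∘ ψ) := isAffineExtension_comp hφ hψ
  refine ⟨hθ, ?_⟩
  intro C hC hCy
  obtain ⟨hCP, hCcomp, hCconv, hCinv⟩ := hC
  have hCclosed : IsClosed C := hCcomp.isClosed
  set XK := K.clExt with hXK
  set XL := L.clExt with hXL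
  set XP := P.clExt with hXP
  have hψX : ∀ p ∈ XP, ψ p ∈ XL := fun p hp => hψ.map_clExt pψ hp
  have hφX : ∀ x ∈ XL, φ x ∈ XK := fun x hx => hφ.map_clExt pφ hx
  have hθX : ∀ p ∈ XP, φ (ψ p) ∈ XK := fun p hp => hφX _ (hψX p hp)
  have hθc : ContinuousOn (φ ∘ ψ) XP := hθ.continuousOn.mono P.clExt_subset
  have hψc : ContinuousOn ψ XP := hψ.continuousOn.mono P.clExt_subset
  have hφc : ContinuousOn φ XL := hφ.continuousOn.mono L.clExt_subset
  -- the closed invariant sets `Y N`
  let Y : ℕ → Set E := fun N => barySet XP C (φ ∘ ψ) N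
  have hYcomp : ∀ N, IsCompact (Y N) := fun N =>
    isCompact_barySet P.isCompact_clExt hCclosed hθc N
  have hYsub : ∀ N, Y N ⊆ XK := by
    rintro N y ⟨q, hq, rfl⟩
    exact hθX _ (hq.2.1 0)
  have hYinv : ∀ N, ∀ g : G, ∀ y ∈ Y N, K.act g y ∈ Y N := by
    rintro N g y ⟨q, ⟨h1, h2, h3, h4⟩, rfl⟩
    have heq : ∀ i, (φ ∘ ψ) (P.act g (q.2 i)) = K.act g ((φ ∘ ψ) (q.2 i)) := fun i =>
      hθ.equivariant g _ (P.clExt_subset (h2 i))
    refine ⟨(q.1, fun i => P.act g (q.2 i)), ⟨h1, fun i => P.act_mem_clExt g (h2 i), ?_, ?_⟩, ?_⟩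
    · intro i
      show (φ ∘ ψ) (P.act g (q.2 i)) = (φ ∘ ψ) (P.act g (q.2 0))
      rw [heq i, heq 0, h3 i]
    · show ∑ i, q.1 i • P.act g (q.2 i) ∈ C
      rw [← map_sum_of_affineOn P.convex_carrier (P.act g) (P.act_affine g) q.1 q.2 h1.1 h1.2
        (fun i => P.clExt_subset (h2 i))]
      exact hCinv g _ h4
    · exact heq 0
  have hYun : ∀ y ∈ XK, ∃ N, y ∈ Y N := fun y hy => exists_mem_barySet (hCy y hy)
  -- Baire category
  have : CompactSpace XK := isCompact_iff_compactSpace.1 K.isCompact_clExt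
  let Y' : ℕ → Set XK := fun N => Subtype.val ⁻¹' Y N
  have hY'closed : ∀ N, IsClosed (Y' N) := fun N =>
    (hYcomp N).isClosed.preimage continuous_subtype_val
  have hY'un : ⋃ N, Y' N = univ := by
    apply eq_univ_of_forall
    intro y
    obtain ⟨N, hN⟩ := hYun y.1 y.2
    exact mem_iUnion.2 ⟨N, hN⟩
  have hdense : Dense (⋃ N, interior (Y' N)) := dense_iUnion_interior_of_closed hY'closed hY'un
  have hO : ∀ N, ∃ O : Set E, IsOpen O ∧ Subtype.val ⁻¹' O = interior (Y' N) := fun N =>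
    isOpen_induced_iff.1 isOpen_interior
  choose O hOopen hOeq using hO
  have hmemO : ∀ N, ∀ y, ∀ hy : y ∈ XK, y ∈ O N ↔ (⟨y, hy⟩ : XK) ∈ interior (Y' N) := by
    intro N y hy
    rw [← hOeq N]
    rfl
  have hOY : ∀ N, ∀ y ∈ XK, y ∈ O N → y ∈ Y N := by
    intro N y hy hyO
    have h : (⟨y, hy⟩ : XK) ∈ Y' N := interior_subset ((hmemO N y hy).1 hyO)
    exact h
  -- invariance of `O N ∩ XK`
  have hOinv : ∀ N, ∀ g : G, ∀ y ∈ XK, y ∈ O N → K.act g y ∈ O N := by
    intro N g y hy hyO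
    let a : XK → XK := fun z => ⟨K.act g⁻¹ z.1, K.act_mem_clExt g⁻¹ z.2⟩
    have ha : Continuous a := by
      apply Continuous.subtype_mk
      have := (K.continuousOn_act_right g⁻¹).mono K.clExt_subset
      exact continuousOn_iff_continuous_domRestrict.1 this
    rw [hmemO N _ (K.act_mem_clExt g hy)]
    have hsub : a ⁻¹' interior (Y' N) ⊆ Y' N := by
      intro z hz
      have h0 : a z ∈ Y' N := interior_subset hz
      have h1 : K.act g⁻¹ z.1 ∈ Y N := h0
      have h2 := hYinv N g _ h1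
      rw [K.act_act_inv g (K.clExt_subset z.2)] at h2
      exact h2
    have hopen : IsOpen (a ⁻¹' interior (Y' N)) := isOpen_interior.preimage ha
    apply interior_maximal hsub hopen
    show a ⟨K.act g y, _⟩ ∈ interior (Y' N)
    have : a ⟨K.act g y, K.act_mem_clExt g hy⟩ = ⟨y, hy⟩ := by
      apply Subtype.ext
      exact K.act_inv_act g (K.clExt_subset hy)
    rw [this]
    exact (hmemO N y hy).1 hyO
  have hOinv' : ∀ N, ∀ g : G, ∀ y ∈ XK, K.act g y ∈ O N → y ∈ O N := by
    intro N g y hy h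
    have := hOinv N g⁻¹ _ (K.act_mem_clExt g hy) h
    rwa [K.act_inv_act g (K.clExt_subset hy)] at this
  -- Step A : `closure (ext L)` over `O N` is contained in `barySet XP C ψ N`
  have hA : ∀ N, ∀ x ∈ XL, φ x ∈ O N → x ∈ barySet XP C ψ N := by
    intro N
    have hScomp : IsCompact (barySet XP C ψ N) :=
      isCompact_barySet P.isCompact_clExt hCclosed hψc N
    -- the set of barycentres
    let R : Set F := (fun q : (Fin (N + 1) → ℝ) × (Fin (N + 1) → H) =>
      ∑ i, q.1 i • ψ (q.2 i)) '' baryConf XP C (φ ∘ ψ) N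
    have hRcomp : IsCompact R := by
      apply (isCompact_baryConf P.isCompact_clExt hCclosed hθc N).image_of_continuousOn
      apply continuousOn_finsetSum
      intro i _
      apply ContinuousOn.smul
      · fun_prop
      · exact hψc.comp (by fun_prop) (fun q hq => hq.2.1 i)
    have hRL : R ⊆ L.carrier := by
      rintro x ⟨q, hq, rfl⟩
      exact L.convex_carrier.sum_mem (fun i _ => hq.1.1 i) hq.1.2
        (fun i _ => L.clExt_subset (hψX _ (hq.2.1 i)))
    have hRinv : ∀ g : G, ∀ x ∈ R, L.act g x ∈ R := by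
      rintro g x ⟨q, ⟨h1, h2, h3, h4⟩, rfl⟩
      have heq : ∀ i, (φ ∘ ψ) (P.act g (q.2 i)) = K.act g ((φ ∘ ψ) (q.2 i)) := fun i =>
        hθ.equivariant g _ (P.clExt_subset (h2 i))
      refine ⟨(q.1, fun i => P.act g (q.2 i)),
        ⟨h1, fun i => P.act_mem_clExt g (h2 i), ?_, ?_⟩, ?_⟩
      · intro i
        show (φ ∘ ψ) (P.act g (q.2 i)) = (φ ∘ ψ) (P.act g (q.2 0))
        rw [heq i, heq 0, h3 i]
      · show ∑ i, q.1 i • P.act g (q.2 i) ∈ C
        rw [← map_sum_of_affineOn P.convex_carrier (P.act g) (P.act_affine g) q.1 q.2 h1.1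
          h1.2 (fun i => P.clExt_subset (h2 i))]
        exact hCinv g _ h4
      · show ∑ i, q.1 i • ψ (P.act g (q.2 i)) = L.act g (∑ i, q.1 i • ψ (q.2 i))
        rw [map_sum_of_affineOn L.convex_carrier (L.act g) (L.act_affine g) q.1
          (fun i => ψ (q.2 i)) h1.1 h1.2 (fun i => L.clExt_subset (hψX _ (h2 i)))]
        apply Finset.sum_congr rfl
        intro i _
        rw [hψ.equivariant g _ (P.clExt_subset (h2 i))]
    let Z : Set F := XL ∩ φ ⁻¹' (O N)ᶜ
    have hZclosed : IsClosed Z :=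
      hφc.preimage_isClosed_of_isClosed L.isClosed_clExt (hOopen N).isClosed_compl
    have hZL : Z ⊆ L.carrier := inter_subset_left.trans L.clExt_subset
    have hZcomp : IsCompact Z := L.isCompact_carrier.of_isClosed_subset hZclosed hZL
    have hZinv : ∀ g : G, ∀ x ∈ Z, L.act g x ∈ Z := by
      intro g x hx
      refine ⟨L.act_mem_clExt g hx.1, ?_⟩
      show φ (L.act g x) ∉ O N
      rw [hφ.equivariant g x (hZL hx)]
      intro h
      exact hx.2 (hOinv' N g _ (hφX x hx.1) h)
    have hUsub : R ∪ Z ⊆ L.carrier := union_subset hRL hZL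
    have hUinv : ∀ g : G, ∀ x ∈ R ∪ Z, L.act g x ∈ R ∪ Z := by
      rintro g x (hx | hx)
      · exact Or.inl (hRinv g x hx)
      · exact Or.inr (hZinv g x hx)
    have heq : closure (convexHull ℝ (R ∪ Z)) = L.carrier := by
      apply pφ _ (L.isSubflow_closure_convexHull hUsub hUinv)
      intro y hy
      by_cases hyO : y ∈ O N
      · obtain ⟨q, hq, hqy⟩ := hOY N y hy hyO
        refine ⟨∑ i, q.1 i • ψ (q.2 i),
          subset_closure (subset_convexHull ℝ _ (Or.inl ⟨q, hq, rfl⟩)), ?_⟩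
        apply (convex_convexHull ℝ _).sum_mem (fun i _ => hq.1.1 i) hq.1.2
        intro i _
        apply subset_convexHull ℝ _
        refine ⟨hψX _ (hq.2.1 i), ?_⟩
        show φ (ψ (q.2 i)) = y
        rw [← hqy]
        exact hq.2.2.1 i
      · obtain ⟨x, hx, hxy⟩ := hφ.exists_lift hy
        refine ⟨x, subset_closure (subset_convexHull ℝ _ (Or.inr ⟨hx, ?_⟩)),
          subset_convexHull ℝ _ ⟨hx, hxy⟩⟩
        show φ x ∉ O N
        rw [hxy]; exact hyO
    have hext : L.carrier.extremePoints ℝ ⊆ R ∪ Z :=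
      milman L.isCompact_carrier L.convex_carrier (hRcomp.union hZcomp) heq
    -- extreme points over `O N`
    have hextS : ∀ x ∈ L.carrier.extremePoints ℝ, φ x ∈ O N → x ∈ barySet XP C ψ N := by
      intro x hx hxO
      rcases hext hx with hxR | hxZ
      · obtain ⟨q, ⟨h1, h2, h3, h4⟩, hqx⟩ := hxR
        have hkey : ∀ i, 0 < q.1 i → ψ (q.2 i) = x := fun i hi =>
          eq_of_sum_eq_extreme L.convex_carrier hx q.1 (fun i => ψ (q.2 i)) h1.1 h1.2
            (fun i => L.clExt_subset (hψX _ (h2 i))) hqx i hi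
        obtain ⟨i0, hi0⟩ : ∃ i, 0 < q.1 i := by
          by_contra hcon
          push Not at hcon
          have : ∑ i, q.1 i ≤ 0 := Finset.sum_nonpos fun i _ => hcon i
          have h5 : ∑ i, q.1 i = 1 := h1.2
          linarith
        let p' : Fin (N + 1) → H := fun i => if 0 < q.1 i then q.2 i else q.2 i0
        have hp'X : ∀ i, p' i ∈ XP := by
          intro i
          by_cases hi : 0 < q.1 i
          · simp only [p', hi, if_true]; exact h2 i
          · simp only [p', hi, if_false]; exact h2 i0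
        have hp'ψ : ∀ i, ψ (p' i) = x := by
          intro i
          by_cases hi : 0 < q.1 i
          · simp only [p', hi, if_true]; exact hkey i hi
          · simp only [p', hi, if_false]; exact hkey i0 hi0
        have hsum : ∑ i, q.1 i • p' i = ∑ i, q.1 i • q.2 i := by
          apply Finset.sum_congr rfl
          intro i _
          by_cases hi : 0 < q.1 i
          · simp only [p', hi, if_true]
          · have h0 : q.1 i = 0 := le_antisymm (not_lt.1 hi) (h1.1 i)
            rw [h0, zero_smul, zero_smul]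
        refine ⟨(q.1, p'), ⟨h1, hp'X, ?_, ?_⟩, hp'ψ 0⟩
        · intro i
          show ψ (p' i) = ψ (p' 0)
          rw [hp'ψ i, hp'ψ 0]
        · show ∑ i, q.1 i • p' i ∈ C
          rw [hsum]; exact h4
      · exact absurd hxO hxZ.2
    -- pass to the closure
    intro x hx hxO
    have hfreq : ∃ᶠ z in 𝓝 x, z ∈ L.carrier.extremePoints ℝ := mem_closure_iff_frequently.1 hx
    have hev : ∀ᶠ z in 𝓝[XL] x, φ z ∈ O N :=
      (hφc x hx).eventually ((hOopen N).mem_nhds hxO)
    have hev' : ∀ᶠ z in 𝓝 x, z ∈ XL → φ z ∈ O N := eventually_nhdsWithin_iff.1 hev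
    have hfreq' : ∃ᶠ z in 𝓝 x, z ∈ barySet XP C ψ N := by
      refine (hfreq.and_eventually hev').mono ?_
      rintro z ⟨hz1, hz2⟩
      exact hextS z hz1 (hz2 (subset_closure hz1))
    have := mem_closure_iff_frequently.2 hfreq'
    rwa [hScomp.isClosed.closure_eq] at this
  -- Step B
  let W : Set E := ⋃ N, O N
  have hWopen : IsOpen W := isOpen_iUnion hOopen
  have hWinv : ∀ g : G, ∀ y ∈ XK, y ∈ W → K.act g y ∈ W := by
    intro g y hy hyW
    obtain ⟨N, hN⟩ := mem_iUnion.1 hyW
    exact mem_iUnion.2 ⟨N, hOinv N g y hy hN⟩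
  have hWinv' : ∀ g : G, ∀ y ∈ XK, K.act g y ∈ W → y ∈ W := by
    intro g y hy hyW
    obtain ⟨N, hN⟩ := mem_iUnion.1 hyW
    exact mem_iUnion.2 ⟨N, hOinv' N g y hy hN⟩
  let Z : Set H := XP ∩ (φ ∘ ψ) ⁻¹' Wᶜ
  have hZclosed : IsClosed Z :=
    hθc.preimage_isClosed_of_isClosed P.isClosed_clExt hWopen.isClosed_compl
  have hZP : Z ⊆ P.carrier := inter_subset_left.trans P.clExt_subset
  have hZcomp : IsCompact Z := P.isCompact_carrier.of_isClosed_subset hZclosed hZP
  have hUsub : C ∪ Z ⊆ P.carrier := union_subset hCP hZP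
  have hUinv : ∀ g : G, ∀ x ∈ C ∪ Z, P.act g x ∈ C ∪ Z := by
    rintro g x (hx | hx)
    · exact Or.inl (hCinv g x hx)
    · refine Or.inr ⟨P.act_mem_clExt g hx.1, ?_⟩
      show (φ ∘ ψ) (P.act g x) ∉ W
      rw [hθ.equivariant g x (hZP hx)]
      intro h
      exact hx.2 (hWinv' g _ (hθX x hx.1) h)
  have heq : closure (convexHull ℝ (C ∪ Z)) = P.carrier := by
    apply pψ _ (P.isSubflow_closure_convexHull hUsub hUinv)
    intro x hx
    by_cases hxW : φ x ∈ W
    · obtain ⟨N, hN⟩ := mem_iUnion.1 hxW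
      obtain ⟨c, hcC, hc⟩ := nonempty_of_mem_barySet (hA N x hx hN)
      exact ⟨c, subset_closure (subset_convexHull ℝ _ (Or.inl hcC)), hc⟩
    · obtain ⟨p, hp, hpx⟩ := hψ.exists_lift hx
      refine ⟨p, subset_closure (subset_convexHull ℝ _ (Or.inr ⟨hp, ?_⟩)),
        subset_convexHull ℝ _ ⟨hp, hpx⟩⟩
      show φ (ψ p) ∉ W
      rw [hpx]; exact hxW
  have hext : P.carrier.extremePoints ℝ ⊆ C ∪ Z :=
    milman P.isCompact_carrier P.convex_carrier (hCcomp.union hZcomp) heq
  have hextC : ∀ p ∈ P.carrier.extremePoints ℝ, φ (ψ p) ∈ W → p ∈ C := by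
    intro p hp hpW
    rcases hext hp with h | h
    · exact h
    · exact absurd hpW h.2
  -- points of `closure (ext P)` over `W` are in `C`
  have hXPW : ∀ p ∈ XP, φ (ψ p) ∈ W → p ∈ C := by
    intro p hp hpW
    have hfreq : ∃ᶠ z in 𝓝 p, z ∈ P.carrier.extremePoints ℝ := mem_closure_iff_frequently.1 hp
    have hev : ∀ᶠ z in 𝓝[XP] p, (φ ∘ ψ) z ∈ W :=
      (hθc p hp).eventually (hWopen.mem_nhds hpW)
    have hev' : ∀ᶠ z in 𝓝 p, z ∈ XP → (φ ∘ ψ) z ∈ W := eventually_nhdsWithin_iff.1 hev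
    have hfreq' : ∃ᶠ z in 𝓝 p, z ∈ C := by
      refine (hfreq.and_eventually hev').mono ?_
      rintro z ⟨hz1, hz2⟩
      exact hextC z hz1 (hz2 (subset_closure hz1))
    have := mem_closure_iff_frequently.2 hfreq'
    rwa [hCclosed.closure_eq] at this
  -- density of the part over `W`
  have hdW : XK ⊆ closure (XK ∩ W) := by
    intro y hy
    have h1 : (⟨y, hy⟩ : XK) ∈ closure (⋃ N, interior (Y' N)) := hdense _
    have h2 : (Subtype.val : XK → E) ⟨y, hy⟩ ∈
        closure (Subtype.val '' (⋃ N, interior (Y' N))) :=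
      image_closure_subset_closure_image continuous_subtype_val ⟨_, h1, rfl⟩
    refine closure_mono ?_ h2
    rintro _ ⟨z, hz, rfl⟩
    obtain ⟨N, hN⟩ := mem_iUnion.1 hz
    exact ⟨z.2, mem_iUnion.2 ⟨N, (hmemO N z.1 z.2).2 hN⟩⟩
  have hd1 : XL ⊆ closure (XL ∩ φ ⁻¹' (XK ∩ W)) :=
    subset_closure_over hφ pφ inter_subset_left
      (fun g y hy => ⟨K.act_mem_clExt g hy.1, hWinv g y hy.1 hy.2⟩) hdW
  have hd2 : XP ⊆ closure (XP ∩ ψ ⁻¹' (XL ∩ φ ⁻¹' (XK ∩ W))) := by
    apply subset_closure_over hψ pψ inter_subset_left _ hd1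
    intro g x hx
    refine ⟨L.act_mem_clExt g hx.1, ?_⟩
    show φ (L.act g x) ∈ XK ∩ W
    rw [hφ.equivariant g x (L.clExt_subset hx.1)]
    exact ⟨K.act_mem_clExt g hx.2.1, hWinv g _ hx.2.1 hx.2.2⟩
  have hXPC : XP ⊆ C := by
    refine hd2.trans (closure_minimal ?_ hCclosed)
    rintro p ⟨hp, hp2⟩
    exact hXPW p hp hp2.2.2
  -- conclude with Krein-Milman
  apply Subset.antisymm hCP
  rw [← closure_convexHull_extremePoints P.isCompact_carrier P.convex_carrier]
  exact closure_minimal (convexHull_min (subset_closure.trans hXPC) hCconv) hCclosed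

end Pool.Agent.Results.MP_d4114f_an.Composition
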